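import Pool.Agent.TotallySkew.Tools

/-!
A totally skew embedding of the 2-sphere in Euclidean 7-space.

The map is `p ↦ (p₀, p₁, p₂, p₀² - p₁², p₀ p₁, p₀ p₂, p₁ p₂)`.
-/

open scoped Manifold ContDiff
open Metric Module
open Pool.Agent.TotallySkew

namespace Pool.Agent.Lib.MP_794fdb_gt.SphereR7

/-- The polynomial map. -/
noncomputable def Phi (p : EuclideanSpace ℝ (Fin 3)) : EuclideanSpace ℝ (Fin 7) :=
  WithLp.toLp 2 ![p 0, p 1, p 2, p 0 * p 0 - p 1 * p 1, p 0 * p 1, p 0 * p 2, p 1 * p 2]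

/-- Its derivative. -/
noncomputable def dPhi (p : EuclideanSpace ℝ (Fin 3)) :
    EuclideanSpace ℝ (Fin 3) →L[ℝ] EuclideanSpace ℝ (Fin 7) :=
  LinearMap.toContinuousLinearMap
    { toFun := fun h => WithLp.toLp 2 ![h 0, h 1, h 2, 2 * (p 0 * h 0) - 2 * (p 1 * h 1),
        p 0 * h 1 + p 1 * h 0, p 0 * h 2 + p 2 * h 0, p 1 * h 2 + p 2 * h 1]
      map_add' := by
        intro h k
        ext i
        fin_cases i <;> simp <;> ring
      map_smul' := by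
        intro c h
        ext i
        fin_cases i <;> simp <;> ring }

theorem dPhi_apply (p h : EuclideanSpace ℝ (Fin 3)) :
    dPhi p h = WithLp.toLp 2 ![h 0, h 1, h 2, 2 * (p 0 * h 0) - 2 * (p 1 * h 1),
        p 0 * h 1 + p 1 * h 0, p 0 * h 2 + p 2 * h 0, p 1 * h 2 + p 2 * h 1] := rfl

theorem hasStrictFDerivAt_coord (i : Fin 3) (p : EuclideanSpace ℝ (Fin 3)) :
    HasStrictFDerivAt (fun q : EuclideanSpace ℝ (Fin 3) => q i)
      (EuclideanSpace.proj i : EuclideanSpace ℝ (Fin 3) →L[ℝ] ℝ) p :=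
  (EuclideanSpace.proj i : EuclideanSpace ℝ (Fin 3) →L[ℝ] ℝ).hasStrictFDerivAt

theorem hasFDerivAt_Phi (p : EuclideanSpace ℝ (Fin 3)) : HasFDerivAt Phi (dPhi p) p := by
  refine HasStrictFDerivAt.hasFDerivAt (hasStrictFDerivAt_euclidean.2 fun i => ?_)
  have h := fun i : Fin 3 => hasStrictFDerivAt_coord i p
  fin_cases i
  · refine (h 0).congr_fderiv ?_
    ext v; simp [dPhi_apply]
  · refine (h 1).congr_fderiv ?_
    ext v; simp [dPhi_apply]
  · refine (h 2).congr_fderiv ?_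
    ext v; simp [dPhi_apply]
  · refine (((h 0).mul (h 0)).sub ((h 1).mul (h 1))).congr_fderiv ?_
    ext v; simp [dPhi_apply]; ring
  · refine ((h 0).mul (h 1)).congr_fderiv ?_
    ext v; simp [dPhi_apply]
  · refine ((h 0).mul (h 2)).congr_fderiv ?_
    ext v; simp [dPhi_apply]
  · refine ((h 1).mul (h 2)).congr_fderiv ?_
    ext v; simp [dPhi_apply]

theorem contDiff_Phi : ContDiff ℝ ∞ Phi := by
  rw [contDiff_euclidean]
  intro i
  have h : ∀ i : Fin 3, ContDiff ℝ ∞ (fun q : EuclideanSpace ℝ (Fin 3) => q i) := fun i =>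
    (EuclideanSpace.proj i : EuclideanSpace ℝ (Fin 3) →L[ℝ] ℝ).contDiff
  fin_cases i
  · exact h 0
  · exact h 1
  · exact h 2
  · exact ((h 0).mul (h 0)).sub ((h 1).mul (h 1))
  · exact (h 0).mul (h 1)
  · exact (h 0).mul (h 2)
  · exact (h 1).mul (h 2)

/-- If the symmetric matrix `d gᵀ + g dᵀ` is a multiple of `diag (1, 1, -2)` and `d ≠ 0` then
`g = 0`. -/
theorem key_aux {d0 d1 d2 g0 g1 g2 : ℝ} (hd : d0 ≠ 0 ∨ d1 ≠ 0 ∨ d2 ≠ 0)
    (r1 : d0 * g0 = d1 * g1) (r2 : d0 * g1 + d1 * g0 = 0) (r3 : d0 * g2 + d2 * g0 = 0)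
    (r4 : d1 * g2 + d2 * g1 = 0) (r5 : d0 * g0 + d1 * g1 + d2 * g2 = 0) :
    g0 = 0 ∧ g1 = 0 ∧ g2 = 0 := by
  have s1 : (d0 * g0) ^ 2 + (d1 * g0) ^ 2 = 0 := by
    linear_combination (d0 * g0) * r1 + (d1 * g0) * r2
  have s1' := (add_eq_zero_iff_of_nonneg (sq_nonneg (d0 * g0)) (sq_nonneg (d1 * g0))).1 s1
  have s2 : d0 * g0 = 0 := by simpa using s1'.1
  have s3 : d1 * g0 = 0 := by simpa using s1'.2
  have s4 : d1 * g1 = 0 := by rw [← r1]; exact s2
  have s5 : d0 * g1 = 0 := by rw [s3, add_zero] at r2; exact r2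
  have s6 : d2 * g2 = 0 := by rw [s2, s4] at r5; simpa using r5
  have s7 : (d0 * g2) ^ 2 = 0 := by
    linear_combination (d0 * g2) * r3 - (d0 * g0) * s6
  have s8 : d0 * g2 = 0 := by simpa using s7
  have s9 : d2 * g0 = 0 := by rw [s8, zero_add] at r3; exact r3
  have s10 : (d1 * g2) ^ 2 = 0 := by
    linear_combination (d1 * g2) * r4 - (d1 * g1) * s6
  have s11 : d1 * g2 = 0 := by simpa using s10
  have s12 : d2 * g1 = 0 := by rw [s11, zero_add] at r4; exact r4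
  rcases hd with h | h | h
  · exact ⟨(mul_eq_zero.1 s2).resolve_left h, (mul_eq_zero.1 s5).resolve_left h,
      (mul_eq_zero.1 s8).resolve_left h⟩
  · exact ⟨(mul_eq_zero.1 s3).resolve_left h, (mul_eq_zero.1 s4).resolve_left h,
      (mul_eq_zero.1 s11).resolve_left h⟩
  · exact ⟨(mul_eq_zero.1 s9).resolve_left h, (mul_eq_zero.1 s12).resolve_left h,
      (mul_eq_zero.1 s6).resolve_left h⟩

/-- The algebraic heart: the affine hull of the two tangent planes is five dimensional. -/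
theorem key {x0 x1 x2 y0 y1 y2 a0 a1 a2 b0 b1 b2 t : ℝ}
    (hx : x0 ^ 2 + x1 ^ 2 + x2 ^ 2 = 1) (hy : y0 ^ 2 + y1 ^ 2 + y2 ^ 2 = 1)
    (hne : x0 - y0 ≠ 0 ∨ x1 - y1 ≠ 0 ∨ x2 - y2 ≠ 0)
    (ha : x0 * a0 + x1 * a1 + x2 * a2 = 0) (hb : y0 * b0 + y1 * b1 + y2 * b2 = 0)
    (e0 : t * (x0 - y0) + a0 + b0 = 0) (e1 : t * (x1 - y1) + a1 + b1 = 0)
    (e2 : t * (x2 - y2) + a2 + b2 = 0)
    (q1 : t * ((x0 * x0 - x1 * x1) - (y0 * y0 - y1 * y1)) +
      (2 * (x0 * a0) - 2 * (x1 * a1)) + (2 * (y0 * b0) - 2 * (y1 * b1)) = 0)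
    (q2 : t * (x0 * x1 - y0 * y1) + (x0 * a1 + x1 * a0) + (y0 * b1 + y1 * b0) = 0)
    (q3 : t * (x0 * x2 - y0 * y2) + (x0 * a2 + x2 * a0) + (y0 * b2 + y2 * b0) = 0)
    (q4 : t * (x1 * x2 - y1 * y2) + (x1 * a2 + x2 * a1) + (y1 * b2 + y2 * b1) = 0) :
    t = 0 ∧ (a0 = 0 ∧ a1 = 0 ∧ a2 = 0) ∧ (b0 = 0 ∧ b1 = 0 ∧ b2 = 0) := by
  have hb0 : b0 = -a0 - t * (x0 - y0) := by linear_combination e0
  have hb1 : b1 = -a1 - t * (x1 - y1) := by linear_combination e1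
  have hb2 : b2 = -a2 - t * (x2 - y2) := by linear_combination e2
  subst hb0 hb1 hb2
  clear e0 e1 e2
  have hg : a0 + t * (x0 - y0) / 2 = 0 ∧ a1 + t * (x1 - y1) / 2 = 0 ∧
      a2 + t * (x2 - y2) / 2 = 0 := by
    apply key_aux hne
    · linear_combination q1 / 2
    · linear_combination q2
    · linear_combination q3
    · linear_combination q4
    · linear_combination ha + hb + t / 2 * (hx - hy)
  obtain ⟨k0, k1, k2⟩ := hg
  have hdd : 0 < (x0 - y0) ^ 2 + (x1 - y1) ^ 2 + (x2 - y2) ^ 2 := by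
    rcases hne with h | h | h <;> positivity
  have ht : t * ((x0 - y0) ^ 2 + (x1 - y1) ^ 2 + (x2 - y2) ^ 2) = 0 := by
    linear_combination (4 * x0) * k0 + (4 * x1) * k1 + (4 * x2) * k2 - 4 * ha - t * hx + t * hy
  have ht0 : t = 0 := (mul_eq_zero.1 ht).resolve_right hdd.ne'
  subst ht0
  have l0 : a0 = 0 := by simpa using k0
  have l1 : a1 = 0 := by simpa using k1
  have l2 : a2 = 0 := by simpa using k2
  subst l0 l1 l2
  refine ⟨rfl, ⟨rfl, rfl, rfl⟩, ?_, ?_, ?_⟩ <;> simp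

section

local instance : Fact (finrank ℝ (EuclideanSpace ℝ (Fin 3)) = 2 + 1) :=
  ⟨finrank_euclideanSpace_fin⟩

/-- The inclusion of the unit sphere of `ℝ³`. -/
abbrev inc : sphere (0 : EuclideanSpace ℝ (Fin 3)) 1 → EuclideanSpace ℝ (Fin 3) := Subtype.val

theorem inc_mdiff (x : sphere (0 : EuclideanSpace ℝ (Fin 3)) 1) :
    MDifferentiableAt (𝓡 2) 𝓘(ℝ, EuclideanSpace ℝ (Fin 3)) inc x :=
  (contMDiff_coe_sphere (m := 1) (n := 2) x).mdifferentiableAt one_ne_zero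

theorem tangent_orth (x : sphere (0 : EuclideanSpace ℝ (Fin 3)) 1)
    (u : TangentSpace (𝓡 2) x) :
    inc x 0 * (mvfderiv (𝓡 2) inc x u) 0 + inc x 1 * (mvfderiv (𝓡 2) inc x u) 1
    + inc x 2 * (mvfderiv (𝓡 2) inc x u) 2 = 0 := by
  have h : mvfderiv (𝓡 2) inc x u ∈ (mvfderiv (𝓡 2) inc x).range := ⟨u, rfl⟩
  rw [range_mvfderiv_subtypeVal] at h
  rw [Submodule.mem_orthogonal_singleton_iff_inner_right] at h
  simp only [PiLp.inner_apply, Fin.sum_univ_three, RCLike.inner_apply, conj_trivial] at h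
  linarith

theorem unit_norm (x : sphere (0 : EuclideanSpace ℝ (Fin 3)) 1) :
    inc x 0 ^ 2 + inc x 1 ^ 2 + inc x 2 ^ 2 = 1 := by
  have h : ‖inc x‖ ^ 2 = 1 := by simp
  rw [EuclideanSpace.norm_sq_eq, Fin.sum_univ_three] at h
  simpa using h

/-- The totally skew map. -/
noncomputable def phi (x : sphere (0 : EuclideanSpace ℝ (Fin 3)) 1) : EuclideanSpace ℝ (Fin 7) :=
  Phi (inc x)

theorem mvfderiv_phi (x : sphere (0 : EuclideanSpace ℝ (Fin 3)) 1) (u : TangentSpace (𝓡 2) x) :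
    mvfderiv (𝓡 2) phi x u = dPhi (inc x) (mvfderiv (𝓡 2) inc x u) :=
  mvfderiv_comp_of_hasFDerivAt (hasFDerivAt_Phi (inc x)) (inc_mdiff x) u

theorem main {x y : sphere (0 : EuclideanSpace ℝ (Fin 3)) 1} (hxy : x ≠ y) {t : ℝ}
    {u : TangentSpace (𝓡 2) x} {v : TangentSpace (𝓡 2) y}
    (h : t • (phi x - phi y) + mvfderiv (𝓡 2) phi x u + mvfderiv (𝓡 2) phi y v = 0) :
    t = 0 ∧ mvfderiv (𝓡 2) phi x u = 0 := by
  have hne : inc x 0 - inc y 0 ≠ 0 ∨ inc x 1 - inc y 1 ≠ 0 ∨ inc x 2 - inc y 2 ≠ 0 := by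
    by_contra hcon
    push Not at hcon
    apply hxy
    apply Subtype.ext
    ext i
    fin_cases i
    · exact sub_eq_zero.1 hcon.1
    · exact sub_eq_zero.1 hcon.2.1
    · exact sub_eq_zero.1 hcon.2.2
  rw [mvfderiv_phi, mvfderiv_phi] at h
  rw [mvfderiv_phi]
  have hc : ∀ i : Fin 7, (t • (phi x - phi y) + dPhi (inc x) (mvfderiv (𝓡 2) inc x u) +
      dPhi (inc y) (mvfderiv (𝓡 2) inc y v)) i = 0 := by
    intro i
    rw [h]
    rfl
  have h0 := hc 0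
  have h1 := hc 1
  have h2 := hc 2
  have h3 := hc 3
  have h4 := hc 4
  have h5 := hc 5
  have h6 := hc 6
  simp only [phi, Phi, dPhi_apply, PiLp.add_apply, PiLp.smul_apply, PiLp.sub_apply,
    smul_eq_mul] at h0 h1 h2 h3 h4 h5 h6
  have hk := key (unit_norm x) (unit_norm y) hne (tangent_orth x u) (tangent_orth y v)
    h0 h1 h2 h3 h4 h5 h6
  have ha : mvfderiv (𝓡 2) inc x u = 0 := by
    ext i
    fin_cases i
    · exact hk.2.1.1
    · exact hk.2.1.2.1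
    · exact hk.2.1.2.2
  exact ⟨hk.1, by rw [ha, map_zero]⟩

theorem inc_inj (x : sphere (0 : EuclideanSpace ℝ (Fin 3)) 1) :
    Function.Injective (mvfderiv (𝓡 2) inc x) :=
  injective_mvfderiv_subtypeVal_sphere x

theorem phi_contMDiff : ContMDiff (𝓡 2) 𝓘(ℝ, EuclideanSpace ℝ (Fin 7)) ∞ phi :=
  contDiff_Phi.contMDiff.comp contMDiff_coe_sphere

end

/-- **`N(S²) ≤ 7`.** The unit sphere of `ℝ³` has a totally skew smooth embedding in `ℝ⁷`. -/
theorem result :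
    ∃ φ : sphere (0 : EuclideanSpace ℝ (Fin 3)) 1 → EuclideanSpace ℝ (Fin 7),
      IsTotallySkewEmbedding (𝓡 2) φ := by
  refine ⟨phi, isTotallySkewEmbedding_of_compact phi_contMDiff ?_ ?_⟩
  · intro x u hu
    rw [mvfderiv_phi] at hu
    apply inc_inj x
    have h : ∀ i : Fin 7, (dPhi (inc x) (mvfderiv (𝓡 2) inc x u)) i = 0 := by
      intro i
      rw [hu]
      rfl
    have h0 := h 0
    have h1 := h 1
    have h2 := h 2
    simp only [dPhi_apply] at h0 h1 h2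
    rw [map_zero]
    ext i
    fin_cases i
    · exact h0
    · exact h1
    · exact h2
  · intro x y hxy t u v h
    exact main hxy h

end Pool.Agent.Lib.MP_794fdb_gt.SphereR7
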