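import Pool.Agent.TotallySkew.Tools

/-!
A totally skew embedding of the torus in Euclidean 7-space.

The map is `(z, w) ↦ (z, w, 4 z w + i (z² - w²), Re (conj z · w))`, `|z| = |w| = 1`.
-/

set_option autoImplicit false

open scoped Manifold ContDiff ComplexConjugate
open Complex Module
open Pool.Agent.TotallySkew

namespace Pool.Agent.Lib.MP_794fdb_gt.TorusR7



theorem rep {d g : ℂ} (hd : d ≠ 0) (h : (conj d * g).re = 0) : ∃ x : ℝ, g = I * x * d := by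
  have hn : (normSq d : ℂ) ≠ 0 := by exact_mod_cast (normSq_pos.2 hd).ne'
  obtain ⟨m, hm⟩ : ∃ m : ℝ, conj d * g = I * (m : ℂ) := by
    refine ⟨(conj d * g).im, ?_⟩
    apply Complex.ext
    · simp [h]
    · simp
  have e2 : (normSq d : ℂ) * g = I * (m : ℂ) * d := by
    rw [← hm, ← mul_conj d]
    ring
  refine ⟨m / normSq d, ?_⟩
  rw [ofReal_div]
  field_simp
  linear_combination e2

/-- Linear algebra: the case distinction. -/
theorem lin {d₁ d₂ g₁ g₂ : ℂ} (hne : d₁ ≠ 0 ∨ d₂ ≠ 0) (h1 : (conj d₁ * g₁).re = 0)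
    (h2 : (conj d₂ * g₂).re = 0) (h3 : (conj d₁ * g₂ + conj d₂ * g₁).re = 0)
    (h4 : 4 * (d₁ * g₂ + d₂ * g₁) + 2 * I * (d₁ * g₁ - d₂ * g₂) = 0)
    (hx : ∀ x : ℝ, x ≠ 0 → d₁ ≠ 0 → d₂ ≠ 0 → g₁ = I * x * d₁ → g₂ = I * x * d₂ →
      ‖d₁‖ = ‖d₂‖) : g₁ = 0 ∧ g₂ = 0 := by
  have hII : I * I = -1 := I_mul_I
  by_cases hd1 : d₁ = 0
  · have hd2 : d₂ ≠ 0 := by
      rcases hne with h | h
      · exact absurd hd1 h
      · exact h
    subst hd1
    obtain ⟨y, rfl⟩ := rep hd2 h2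
    have h3' : (conj d₂ * g₁).re = 0 := by simpa using h3
    obtain ⟨x, rfl⟩ := rep hd2 h3'
    have h5 : (d₂ * d₂) * (4 * I * x + 2 * y) = 0 := by
      linear_combination h4 + (2 * y * d₂ ^ 2) * hII
    have h6 : (4 * I * x + 2 * y : ℂ) = 0 := by
      rcases mul_eq_zero.1 h5 with h | h
      · exact absurd h (mul_ne_zero hd2 hd2)
      · exact h
    have hy := congrArg Complex.re h6
    have hx' := congrArg Complex.im h6
    simp at hy hx'
    subst hy hx'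
    simp
  · by_cases hd2 : d₂ = 0
    · subst hd2
      obtain ⟨x, rfl⟩ := rep hd1 h1
      have h3' : (conj d₁ * g₂).re = 0 := by simpa using h3
      obtain ⟨y, rfl⟩ := rep hd1 h3'
      have h5 : (d₁ * d₁) * (4 * I * y - 2 * x) = 0 := by
        linear_combination h4 - (2 * x * d₁ ^ 2) * hII
      have h6 : (4 * I * y - 2 * x : ℂ) = 0 := by
        rcases mul_eq_zero.1 h5 with h | h
        · exact absurd h (mul_ne_zero hd1 hd1)
        · exact h
      have hy := congrArg Complex.re h6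
      have hx' := congrArg Complex.im h6
      simp at hy hx'
      subst hy hx'
      simp
    · obtain ⟨x, hg1⟩ := rep hd1 h1
      obtain ⟨y, hg2⟩ := rep hd2 h2
      have h5 : (2 * I * (x + y)) * (d₁ * d₂) = x * d₁ ^ 2 - y * d₂ ^ 2 := by
        rw [hg1, hg2] at h4
        linear_combination h4 / 2 - (x * d₁ ^ 2 - y * d₂ ^ 2) * hII
      have h6 : (x - y) * (conj d₁ * d₂).im = 0 := by
        rw [hg1, hg2] at h3
        simp only [add_re, mul_re, mul_im, I_re, I_im, ofReal_re, ofReal_im, conj_re,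
          conj_im] at h3 ⊢
        linear_combination h3
      rcases mul_eq_zero.1 h6 with h | h
      · have hxy : x = y := sub_eq_zero.1 h
        subst hxy
        by_cases hx0 : x = 0
        · subst hx0
          rw [hg1, hg2]
          simp
        · exfalso
          have hn := hx x hx0 hd1 hd2 hg1 hg2
          have h7 : 4 * I * (d₁ * d₂) = d₁ ^ 2 - d₂ ^ 2 := by
            have hxc : (x : ℂ) ≠ 0 := by exact_mod_cast hx0
            apply mul_left_cancel₀ hxc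
            linear_combination h5
          have h8 := congrArg norm h7
          rw [norm_mul, norm_mul, norm_mul, norm_I, ← hn] at h8
          have h9 : ‖d₁ ^ 2 - d₂ ^ 2‖ ≤ ‖d₁‖ ^ 2 + ‖d₂‖ ^ 2 := by
            have := norm_sub_le (d₁ ^ 2) (d₂ ^ 2)
            simpa [norm_pow] using this
          rw [← hn] at h9
          have h10 : ‖(4 : ℂ)‖ = 4 := by norm_num
          rw [h10] at h8
          have h11 : 0 < ‖d₁‖ := norm_pos_iff.2 hd1
          nlinarith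
      · -- `d₁` is a real multiple of `d₂`
        obtain ⟨k, hk⟩ : ∃ k : ℝ, d₁ = k * d₂ := by
          have h7 : (conj d₂ * (I * d₁)).re = 0 := by
            simp only [mul_re, mul_im, I_re, I_im, conj_re, conj_im] at h ⊢
            linear_combination h
          obtain ⟨k, hk⟩ := rep hd2 h7
          refine ⟨k, ?_⟩
          have : I * d₁ = I * (k * d₂) := by rw [hk]; ring
          exact mul_left_cancel₀ I_ne_zero this
        have hk0 : k ≠ 0 := by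
          rintro rfl
          apply hd1
          rw [hk]
          simp
        rw [hk] at h5
        have h7 : (d₂ * d₂) * ((2 * I * (x + y)) * k - (x * k ^ 2 - y)) = 0 := by
          linear_combination h5
        have h8 : ((2 * I * (x + y)) * k - (x * k ^ 2 - y) : ℂ) = 0 := by
          rcases mul_eq_zero.1 h7 with h | h
          · exact absurd h (mul_ne_zero hd2 hd2)
          · exact h
        have hr := congrArg Complex.re h8
        have hi := congrArg Complex.im h8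
        simp [sq] at hr hi
        have hxy : x + y = 0 := by
          rcases hi with h | h
          · exact h
          · exact absurd h hk0
        have hx0 : x * (k ^ 2 + 1) = 0 := by linarith
        have hx1 : x = 0 := by
          rcases mul_eq_zero.1 hx0 with h | h
          · exact h
          · have : 0 < k ^ 2 + 1 := by positivity
            exact absurd h this.ne'
        have hy1 : y = 0 := by linarith
        rw [hg1, hg2, hx1, hy1]
        simp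

theorem modulus {z₁ z₂ : ℂ} (h1 : normSq z₁ = 1) (h2 : normSq z₂ = 1) {x t : ℝ}
    (hd : z₁ - z₂ ≠ 0) (h : (conj z₁ * ((I * x - t / 2) * (z₁ - z₂))).re = 0) :
    normSq (z₁ - z₂) * (t ^ 2 + 4 * x ^ 2) = 16 * x ^ 2 := by
  obtain ⟨a, b⟩ := z₁
  obtain ⟨c, e⟩ := z₂
  rw [normSq_apply] at h1 h2
  have hn : 0 < normSq ((⟨a, b⟩ : ℂ) - ⟨c, e⟩) := normSq_pos.2 hd
  rw [normSq_apply] at hn ⊢
  have ht : ((t : ℂ) / 2).re = t / 2 := by
    rw [← ofReal_ofNat, ← ofReal_div, ofReal_re]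
  have ht' : ((t : ℂ) / 2).im = 0 := by
    rw [← ofReal_ofNat, ← ofReal_div, ofReal_im]
  simp only [sub_re, sub_im, mul_re, mul_im, I_re, I_im, ofReal_re, ofReal_im, conj_re,
    conj_im, ht, ht'] at h h1 h2 hn ⊢
  -- `A = a c + b e`, `B = a e - b c`
  have hA : a * c + b * e < 1 := by nlinarith
  have h3 : x * (a * e - b * c) = t / 2 * (1 - (a * c + b * e)) := by
    linear_combination h + (t / 2) * h1
  have h4 : (a * e - b * c) ^ 2 = (1 - (a * c + b * e)) * (1 + (a * c + b * e)) := by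
    linear_combination (c ^ 2 + e ^ 2) * h1 + h2
  have h5 : (1 - (a * c + b * e)) * (x ^ 2 * (1 + (a * c + b * e)) -
      t ^ 2 / 4 * (1 - (a * c + b * e))) = 0 := by
    have h6 : x ^ 2 * (a * e - b * c) ^ 2 = t ^ 2 / 4 * (1 - (a * c + b * e)) ^ 2 := by
      have h7 : (x * (a * e - b * c)) ^ 2 = (t / 2 * (1 - (a * c + b * e))) ^ 2 := by rw [h3]
      linear_combination h7
    linear_combination h6 - x ^ 2 * h4
  have h7 : x ^ 2 * (1 + (a * c + b * e)) = t ^ 2 / 4 * (1 - (a * c + b * e)) := by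
    rcases mul_eq_zero.1 h5 with h | h
    · linarith
    · linarith
  linear_combination (t ^ 2 + 4 * x ^ 2) * (h1 + h2) + (-8) * h7

/-- The algebraic heart. -/
theorem key {z₁ z₂ w₁ w₂ u₁ u₂ v₁ v₂ : ℂ} {t : ℝ} (hz₁ : normSq z₁ = 1) (hz₂ : normSq z₂ = 1)
    (hw₁ : normSq w₁ = 1) (hw₂ : normSq w₂ = 1) (hne : z₁ ≠ z₂ ∨ w₁ ≠ w₂)
    (hu₁ : (conj z₁ * u₁).re = 0) (hu₂ : (conj w₁ * u₂).re = 0)
    (hv₁ : (conj z₂ * v₁).re = 0) (hv₂ : (conj w₂ * v₂).re = 0)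
    (e1 : t * (z₁ - z₂) + u₁ + v₁ = 0) (e2 : t * (w₁ - w₂) + u₂ + v₂ = 0)
    (e3 : t * ((4 * z₁ * w₁ + I * (z₁ ^ 2 - w₁ ^ 2)) - (4 * z₂ * w₂ + I * (z₂ ^ 2 - w₂ ^ 2))) +
      (4 * (z₁ * u₂ + w₁ * u₁) + 2 * I * (z₁ * u₁ - w₁ * u₂)) +
      (4 * (z₂ * v₂ + w₂ * v₁) + 2 * I * (z₂ * v₁ - w₂ * v₂)) = 0)
    (e4 : t * ((conj z₁ * w₁).re - (conj z₂ * w₂).re) + (conj z₁ * u₂ + conj w₁ * u₁).re +
      (conj z₂ * v₂ + conj w₂ * v₁).re = 0) : t = 0 ∧ u₁ = 0 ∧ u₂ = 0 := by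
  have hv1 : v₁ = -u₁ - t * (z₁ - z₂) := by linear_combination e1
  have hv2 : v₂ = -u₂ - t * (w₁ - w₂) := by linear_combination e2
  subst hv1 hv2
  clear e1 e2
  have hd : z₁ - z₂ ≠ 0 ∨ w₁ - w₂ ≠ 0 := by
    rcases hne with h | h
    · exact Or.inl (sub_ne_zero.2 h)
    · exact Or.inr (sub_ne_zero.2 h)
  have key1 : ∀ {a b c : ℂ}, normSq a = 1 → normSq b = 1 → (conj a * c).re = 0 →
      (conj b * (-c - t * (a - b))).re = 0 →
      (conj (a - b) * (c + t * (a - b) / 2)).re = 0 := by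
    intro a b c ha hb hc hbc
    have e : c + t * (a - b) / 2 = c + (t / 2 : ℝ) * (a - b) := by push_cast; ring
    rw [e]
    rw [normSq_apply] at ha hb
    simp only [sub_re, sub_im, add_re, add_im, neg_re, neg_im, mul_re, mul_im, ofReal_re,
      ofReal_im, conj_re, conj_im] at hc hbc ⊢
    linear_combination hc + hbc + t / 2 * ha - t / 2 * hb
  have g1 := key1 hz₁ hz₂ hu₁ hv₁
  have g2 := key1 hw₁ hw₂ hu₂ hv₂
  have g3 : (conj (z₁ - z₂) * (u₂ + t * (w₁ - w₂) / 2) +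
      conj (w₁ - w₂) * (u₁ + t * (z₁ - z₂) / 2)).re = 0 := by
    have e : u₂ + t * (w₁ - w₂) / 2 = u₂ + (t / 2 : ℝ) * (w₁ - w₂) := by push_cast; ring
    have e' : u₁ + t * (z₁ - z₂) / 2 = u₁ + (t / 2 : ℝ) * (z₁ - z₂) := by push_cast; ring
    rw [e, e']
    simp only [sub_re, sub_im, add_re, add_im, neg_re, neg_im, mul_re, mul_im, ofReal_re,
      ofReal_im, conj_re, conj_im] at e4 ⊢
    linear_combination e4
  have g4 : 4 * ((z₁ - z₂) * (u₂ + t * (w₁ - w₂) / 2) + (w₁ - w₂) * (u₁ + t * (z₁ - z₂) / 2)) +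
      2 * I * ((z₁ - z₂) * (u₁ + t * (z₁ - z₂) / 2) - (w₁ - w₂) * (u₂ + t * (w₁ - w₂) / 2)) =
      0 := by
    linear_combination e3
  have hmod : ∀ x : ℝ, x ≠ 0 → z₁ - z₂ ≠ 0 → w₁ - w₂ ≠ 0 →
      u₁ + t * (z₁ - z₂) / 2 = I * x * (z₁ - z₂) →
      u₂ + t * (w₁ - w₂) / 2 = I * x * (w₁ - w₂) → ‖z₁ - z₂‖ = ‖w₁ - w₂‖ := by
    intro x hx hd1 hd2 hg1 hg2
    have hu1 : u₁ = (I * x - t / 2) * (z₁ - z₂) := by linear_combination hg1
    have hu2 : u₂ = (I * x - t / 2) * (w₁ - w₂) := by linear_combination hg2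
    rw [hu1] at hu₁
    rw [hu2] at hu₂
    have m1 := modulus hz₁ hz₂ hd1 hu₁
    have m2 := modulus hw₁ hw₂ hd2 hu₂
    have hpos : 0 < t ^ 2 + 4 * x ^ 2 := by positivity
    have m3 : normSq (z₁ - z₂) = normSq (w₁ - w₂) :=
      mul_right_cancel₀ hpos.ne' (m1.trans m2.symm)
    rw [normSq_eq_norm_sq, normSq_eq_norm_sq] at m3
    exact (pow_left_inj₀ (norm_nonneg _) (norm_nonneg _) two_ne_zero).1 m3
  obtain ⟨k1, k2⟩ := lin hd g1 g2 g3 g4 hmod
  have hu1 : u₁ = -(t / 2 : ℝ) * (z₁ - z₂) := by push_cast; linear_combination k1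
  have hu2 : u₂ = -(t / 2 : ℝ) * (w₁ - w₂) := by push_cast; linear_combination k2
  have key2 : ∀ {a b c : ℂ}, normSq a = 1 → normSq b = 1 → (conj a * c).re = 0 →
      c = -(t / 2 : ℝ) * (a - b) → t * normSq (a - b) = 0 := by
    intro a b c ha hb hc hc'
    subst hc'
    rw [normSq_apply] at ha hb ⊢
    simp only [sub_re, sub_im, neg_re, neg_im, mul_re, mul_im, ofReal_re,
      ofReal_im, conj_re, conj_im] at hc ⊢
    linear_combination (-4) * hc - t * ha + t * hb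
  have r1 := key2 hz₁ hz₂ hu₁ hu1
  have r2 := key2 hw₁ hw₂ hu₂ hu2
  have ht : t = 0 := by
    rcases hd with h | h
    · exact (mul_eq_zero.1 r1).resolve_right (normSq_pos.2 h).ne'
    · exact (mul_eq_zero.1 r2).resolve_right (normSq_pos.2 h).ne'
  subst ht
  refine ⟨rfl, ?_, ?_⟩
  · rw [hu1]; simp
  · rw [hu2]; simp

/-- The complex quadratic polynomial. -/
noncomputable def Q (p : ℂ × ℂ) : ℂ := 4 * (p.1 * p.2) + I * (p.1 ^ 2 - p.2 ^ 2)

/-- The map `(z, w) ↦ (z, w, 4 z w + i (z² - w²), Re (conj z · w))` in real coordinates. -/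
noncomputable def Phi (p : ℂ × ℂ) : EuclideanSpace ℝ (Fin 7) :=
  WithLp.toLp 2 ![p.1.re, p.1.im, p.2.re, p.2.im, (Q p).re, (Q p).im,
    p.1.re * p.2.re + p.1.im * p.2.im]

/-- The derivative of `Q`. -/
noncomputable def dQ (p h : ℂ × ℂ) : ℂ :=
  4 * (p.1 * h.2 + p.2 * h.1) + 2 * I * (p.1 * h.1 - p.2 * h.2)

/-- The derivative of `Phi`. -/
noncomputable def dPhi (p : ℂ × ℂ) : ℂ × ℂ →L[ℝ] EuclideanSpace ℝ (Fin 7) :=
  LinearMap.toContinuousLinearMap
    { toFun := fun h => WithLp.toLp 2 ![h.1.re, h.1.im, h.2.re, h.2.im, (dQ p h).re,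
        (dQ p h).im, p.1.re * h.2.re + p.1.im * h.2.im + (p.2.re * h.1.re + p.2.im * h.1.im)]
      map_add' := by
        intro h k
        ext i
        fin_cases i <;> simp [dQ] <;> ring
      map_smul' := by
        intro c h
        ext i
        fin_cases i <;> simp [dQ] <;> ring }

theorem dPhi_apply (p h : ℂ × ℂ) :
    dPhi p h = WithLp.toLp 2 ![h.1.re, h.1.im, h.2.re, h.2.im, (dQ p h).re,
        (dQ p h).im, p.1.re * h.2.re + p.1.im * h.2.im + (p.2.re * h.1.re + p.2.im * h.1.im)] :=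
  rfl

theorem hasFDerivAt_Phi (p : ℂ × ℂ) : HasFDerivAt Phi (dPhi p) p := by
  have hz : HasStrictFDerivAt (fun q : ℂ × ℂ => q.1) (ContinuousLinearMap.fst ℝ ℂ ℂ) p :=
    hasStrictFDerivAt_fst
  have hw : HasStrictFDerivAt (fun q : ℂ × ℂ => q.2) (ContinuousLinearMap.snd ℝ ℂ ℂ) p :=
    hasStrictFDerivAt_snd
  have hzr : HasStrictFDerivAt (fun q : ℂ × ℂ => q.1.re)
      (reCLM.comp (ContinuousLinearMap.fst ℝ ℂ ℂ)) p := reCLM.hasStrictFDerivAt.comp p hz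
  have hzi : HasStrictFDerivAt (fun q : ℂ × ℂ => q.1.im)
      (imCLM.comp (ContinuousLinearMap.fst ℝ ℂ ℂ)) p := imCLM.hasStrictFDerivAt.comp p hz
  have hwr : HasStrictFDerivAt (fun q : ℂ × ℂ => q.2.re)
      (reCLM.comp (ContinuousLinearMap.snd ℝ ℂ ℂ)) p := reCLM.hasStrictFDerivAt.comp p hw
  have hwi : HasStrictFDerivAt (fun q : ℂ × ℂ => q.2.im)
      (imCLM.comp (ContinuousLinearMap.snd ℝ ℂ ℂ)) p := imCLM.hasStrictFDerivAt.comp p hw
  have hQ : HasStrictFDerivAt Q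
      ((4 : ℂ) • (p.1 • ContinuousLinearMap.snd ℝ ℂ ℂ + p.2 • ContinuousLinearMap.fst ℝ ℂ ℂ) +
        (2 * I) • (p.1 • ContinuousLinearMap.fst ℝ ℂ ℂ - p.2 • ContinuousLinearMap.snd ℝ ℂ ℂ))
      p := by
    have h1 := ((hz.mul hw).const_mul 4).add (((hz.mul hz).sub (hw.mul hw)).const_mul I)
    have e : (fun q : ℂ × ℂ => 4 * (q.1 * q.2) + I * (q.1 * q.1 - q.2 * q.2)) = Q := by
      funext q
      unfold Q
      ring
    have h2 : HasStrictFDerivAt (fun q : ℂ × ℂ => 4 * (q.1 * q.2) +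
        I * (q.1 * q.1 - q.2 * q.2)) _ p := h1
    rw [e] at h2
    refine h2.congr_fderiv ?_
    ext v
    · simp
      ring
    · simp
      ring
  refine HasStrictFDerivAt.hasFDerivAt (hasStrictFDerivAt_euclidean.2 fun i => ?_)
  fin_cases i
  · refine hzr.congr_fderiv ?_
    ext v <;> simp [dPhi_apply]
  · refine hzi.congr_fderiv ?_
    ext v <;> simp [dPhi_apply]
  · refine hwr.congr_fderiv ?_
    ext v <;> simp [dPhi_apply]
  · refine hwi.congr_fderiv ?_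
    ext v <;> simp [dPhi_apply]
  · refine (reCLM.hasStrictFDerivAt.comp p hQ).congr_fderiv ?_
    ext v <;> simp [dPhi_apply, dQ]
  · refine (imCLM.hasStrictFDerivAt.comp p hQ).congr_fderiv ?_
    ext v <;> simp [dPhi_apply, dQ]
  · refine ((hzr.mul hwr).add (hzi.mul hwi)).congr_fderiv ?_
    ext v <;> simp [dPhi_apply]

section

attribute [local instance] finrank_real_complex_fact'

/-- The inclusion of the torus in `ℂ²`. -/
noncomputable def inc (x : Circle × Circle) : ℂ × ℂ := ((x.1 : ℂ), (x.2 : ℂ))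

theorem coe_contMDiff : ContMDiff (𝓡 1) 𝓘(ℝ, ℂ) ∞ (fun x : Circle => (x : ℂ)) :=
  contMDiff_coe_sphere (E := ℂ) (n := 1)

theorem coe_range (x : Circle) (u : TangentSpace (𝓡 1) x) :
    (conj (x : ℂ) * mvfderiv (𝓡 1) (fun x : Circle => (x : ℂ)) x u).re = 0 := by
  have h : mvfderiv (𝓡 1) (fun x : Circle => (x : ℂ)) x u ∈
      (mvfderiv (𝓡 1) (fun x : Circle => (x : ℂ)) x).range := ⟨u, rfl⟩
  have h2 : (mvfderiv (𝓡 1) (fun x : Circle => (x : ℂ)) x).range = (Submodule.span ℝ {(x : ℂ)})ᗮ :=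
    range_mvfderiv_subtypeVal (E := ℂ) (n := 1) x
  rw [h2, Submodule.mem_orthogonal_singleton_iff_inner_right] at h
  rw [← h, Complex.inner]
  ring_nf

theorem coe_inj (x : Circle) :
    Function.Injective (mvfderiv (𝓡 1) (fun x : Circle => (x : ℂ)) x) :=
  injective_mvfderiv_subtypeVal_sphere (E := ℂ) (n := 1) x

theorem coe_inj' (x : Circle) (u : TangentSpace (𝓡 1) x)
    (h : mvfderiv (𝓡 1) (fun x : Circle => (x : ℂ)) x u = 0) : u = 0 :=
  (injective_iff_map_eq_zero (mvfderiv (𝓡 1) (fun x : Circle => (x : ℂ)) x)).1 (coe_inj x) u h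

theorem inc_contMDiff : ContMDiff ((𝓡 1).prod (𝓡 1)) 𝓘(ℝ, ℂ × ℂ) ∞ inc :=
  (coe_contMDiff.comp contMDiff_fst).prodMk_space (coe_contMDiff.comp contMDiff_snd)

theorem inc_mdiff (x : Circle × Circle) :
    MDifferentiableAt ((𝓡 1).prod (𝓡 1)) 𝓘(ℝ, ℂ × ℂ) inc x :=
  (inc_contMDiff x).mdifferentiableAt (by simp)

theorem inc_fst (x : Circle × Circle) (u : TangentSpace ((𝓡 1).prod (𝓡 1)) x) :
    (mvfderiv ((𝓡 1).prod (𝓡 1)) inc x u).1 =
      mvfderiv (𝓡 1) (fun x : Circle => (x : ℂ)) x.1 u.1 := by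
  have h1 := mvfderiv_comp_of_hasFDerivAt
    (ContinuousLinearMap.fst ℝ ℂ ℂ).hasFDerivAt (inc_mdiff x) u
  have h2 : (mfderiv ((𝓡 1).prod (𝓡 1)) 𝓘(ℝ, ℂ)
      ((fun x : Circle => (x : ℂ)) ∘ Prod.fst) x : _ →L[ℝ] ℂ) u = 
      mvfderiv (𝓡 1) (fun x : Circle => (x : ℂ)) x.1 u.1 := by
    rw [mfderiv_comp x ((coe_contMDiff x.1).mdifferentiableAt (by simp)) mdifferentiableAt_fst,
      mfderiv_fst]
    rfl
  rw [← h2]
  exact h1.symm

theorem inc_snd (x : Circle × Circle) (u : TangentSpace ((𝓡 1).prod (𝓡 1)) x) :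
    (mvfderiv ((𝓡 1).prod (𝓡 1)) inc x u).2 =
      mvfderiv (𝓡 1) (fun x : Circle => (x : ℂ)) x.2 u.2 := by
  have h1 := mvfderiv_comp_of_hasFDerivAt
    (ContinuousLinearMap.snd ℝ ℂ ℂ).hasFDerivAt (inc_mdiff x) u
  have h2 : (mfderiv ((𝓡 1).prod (𝓡 1)) 𝓘(ℝ, ℂ)
      ((fun x : Circle => (x : ℂ)) ∘ Prod.snd) x : _ →L[ℝ] ℂ) u = 
      mvfderiv (𝓡 1) (fun x : Circle => (x : ℂ)) x.2 u.2 := by
    rw [mfderiv_comp x ((coe_contMDiff x.2).mdifferentiableAt (by simp)) mdifferentiableAt_snd,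
      mfderiv_snd]
    rfl
  rw [← h2]
  exact h1.symm

/-- The totally skew map. -/
noncomputable def phi (x : Circle × Circle) : EuclideanSpace ℝ (Fin 7) := Phi (inc x)

theorem mvfderiv_phi (x : Circle × Circle) (u : TangentSpace ((𝓡 1).prod (𝓡 1)) x) :
    mvfderiv ((𝓡 1).prod (𝓡 1)) phi x u =
      dPhi (inc x) (mvfderiv ((𝓡 1).prod (𝓡 1)) inc x u) :=
  mvfderiv_comp_of_hasFDerivAt (hasFDerivAt_Phi (inc x)) (inc_mdiff x) u

theorem normSq_coe' (x : Circle) : normSq (x : ℂ) = 1 := by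
  rw [normSq_eq_norm_sq, Circle.norm_coe, one_pow]

theorem contDiff_Q : ContDiff ℝ ∞ Q := by
  unfold Q
  fun_prop

theorem contDiff_Phi : ContDiff ℝ ∞ Phi := by
  rw [contDiff_euclidean]
  have hz : ContDiff ℝ ∞ (fun q : ℂ × ℂ => q.1) := contDiff_fst
  have hw : ContDiff ℝ ∞ (fun q : ℂ × ℂ => q.2) := contDiff_snd
  have hzr : ContDiff ℝ ∞ (fun q : ℂ × ℂ => q.1.re) := reCLM.contDiff.comp hz
  have hzi : ContDiff ℝ ∞ (fun q : ℂ × ℂ => q.1.im) := imCLM.contDiff.comp hz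
  have hwr : ContDiff ℝ ∞ (fun q : ℂ × ℂ => q.2.re) := reCLM.contDiff.comp hw
  have hwi : ContDiff ℝ ∞ (fun q : ℂ × ℂ => q.2.im) := imCLM.contDiff.comp hw
  intro i
  fin_cases i
  · exact hzr
  · exact hzi
  · exact hwr
  · exact hwi
  · exact reCLM.contDiff.comp contDiff_Q
  · exact imCLM.contDiff.comp contDiff_Q
  · exact (hzr.mul hwr).add (hzi.mul hwi)

theorem phi_contMDiff : ContMDiff ((𝓡 1).prod (𝓡 1)) 𝓘(ℝ, EuclideanSpace ℝ (Fin 7)) ∞ phi :=
  contDiff_Phi.contMDiff.comp inc_contMDiff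

theorem main {x y : Circle × Circle} (hxy : x ≠ y) {t : ℝ}
    {u : TangentSpace ((𝓡 1).prod (𝓡 1)) x} {v : TangentSpace ((𝓡 1).prod (𝓡 1)) y}
    (h : t • (phi x - phi y) + mvfderiv ((𝓡 1).prod (𝓡 1)) phi x u +
      mvfderiv ((𝓡 1).prod (𝓡 1)) phi y v = 0) :
    t = 0 ∧ mvfderiv ((𝓡 1).prod (𝓡 1)) phi x u = 0 := by
  have hne : (x.1 : ℂ) ≠ y.1 ∨ (x.2 : ℂ) ≠ y.2 := by
    by_contra hcon
    push Not at hcon
    apply hxy
    exact Prod.ext (Circle.ext hcon.1) (Circle.ext hcon.2)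
  rw [mvfderiv_phi, mvfderiv_phi] at h
  rw [mvfderiv_phi]
  have hu₁ := coe_range x.1 u.1
  have hu₂ := coe_range x.2 u.2
  have hv₁ := coe_range y.1 v.1
  have hv₂ := coe_range y.2 v.2
  rw [← inc_fst] at hu₁ hv₁
  rw [← inc_snd] at hu₂ hv₂
  generalize mvfderiv ((𝓡 1).prod (𝓡 1)) inc x u = a at *
  generalize mvfderiv ((𝓡 1).prod (𝓡 1)) inc y v = b at *
  obtain ⟨u₁, u₂⟩ := a
  obtain ⟨v₁, v₂⟩ := b
  have hc : ∀ i : Fin 7, (t • (phi x - phi y) + dPhi (inc x) (u₁, u₂) +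
      dPhi (inc y) (v₁, v₂)) i = 0 := by
    intro i
    rw [h]
    rfl
  have h0 := hc 0
  have h1 := hc 1
  have h2 := hc 2
  have h3 := hc 3
  have h4 := hc 4
  have h5 := hc 5
  have h6 := hc 6
  simp only [phi, Phi, dPhi_apply, PiLp.add_apply, PiLp.smul_apply, PiLp.sub_apply,
    smul_eq_mul] at h0 h1 h2 h3 h4 h5 h6
  change t * ((x.1 : ℂ).re - (y.1 : ℂ).re) + u₁.re + v₁.re = 0 at h0
  change t * ((x.1 : ℂ).im - (y.1 : ℂ).im) + u₁.im + v₁.im = 0 at h1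
  change t * ((x.2 : ℂ).re - (y.2 : ℂ).re) + u₂.re + v₂.re = 0 at h2
  change t * ((x.2 : ℂ).im - (y.2 : ℂ).im) + u₂.im + v₂.im = 0 at h3
  change t * ((Q (inc x)).re - (Q (inc y)).re) + (dQ (inc x) (u₁, u₂)).re +
    (dQ (inc y) (v₁, v₂)).re = 0 at h4
  change t * ((Q (inc x)).im - (Q (inc y)).im) + (dQ (inc x) (u₁, u₂)).im +
    (dQ (inc y) (v₁, v₂)).im = 0 at h5
  change t * (((x.1 : ℂ).re * (x.2 : ℂ).re + (x.1 : ℂ).im * (x.2 : ℂ).im) -
    ((y.1 : ℂ).re * (y.2 : ℂ).re + (y.1 : ℂ).im * (y.2 : ℂ).im)) +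
    ((x.1 : ℂ).re * u₂.re + (x.1 : ℂ).im * u₂.im + ((x.2 : ℂ).re * u₁.re + (x.2 : ℂ).im * u₁.im)) +
    ((y.1 : ℂ).re * v₂.re + (y.1 : ℂ).im * v₂.im + ((y.2 : ℂ).re * v₁.re + (y.2 : ℂ).im * v₁.im))
    = 0 at h6
  have e1 : t * ((x.1 : ℂ) - y.1) + u₁ + v₁ = 0 := by
    apply Complex.ext
    · simpa using h0
    · simpa using h1
  have e2 : t * ((x.2 : ℂ) - y.2) + u₂ + v₂ = 0 := by
    apply Complex.ext
    · simpa using h2
    · simpa using h3
  have e3' : t * (Q (inc x) - Q (inc y)) + dQ (inc x) (u₁, u₂) + dQ (inc y) (v₁, v₂) = 0 := by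
    apply Complex.ext
    · simpa using h4
    · simpa using h5
  have e3 : t * ((4 * (x.1 : ℂ) * x.2 + I * ((x.1 : ℂ) ^ 2 - (x.2 : ℂ) ^ 2)) -
      (4 * (y.1 : ℂ) * y.2 + I * ((y.1 : ℂ) ^ 2 - (y.2 : ℂ) ^ 2))) +
      (4 * ((x.1 : ℂ) * u₂ + x.2 * u₁) + 2 * I * ((x.1 : ℂ) * u₁ - x.2 * u₂)) +
      (4 * ((y.1 : ℂ) * v₂ + y.2 * v₁) + 2 * I * ((y.1 : ℂ) * v₁ - y.2 * v₂)) = 0 := by
    simp only [Q, dQ, inc] at e3'
    linear_combination e3'
  have e4 : t * ((conj (x.1 : ℂ) * x.2).re - (conj (y.1 : ℂ) * y.2).re) +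
      (conj (x.1 : ℂ) * u₂ + conj (x.2 : ℂ) * u₁).re +
      (conj (y.1 : ℂ) * v₂ + conj (y.2 : ℂ) * v₁).re = 0 := by
    simp only [add_re, mul_re, conj_re, conj_im]
    linear_combination h6
  obtain ⟨k1, k2, k3⟩ := key (normSq_coe' x.1) (normSq_coe' y.1) (normSq_coe' x.2)
    (normSq_coe' y.2) hne hu₁ hu₂ hv₁ hv₂ e1 e2 e3 e4
  refine ⟨k1, ?_⟩
  subst k2 k3
  exact map_zero _

end

/-- **`N(T²) ≤ 7`.** The torus has a totally skew smooth embedding in `ℝ⁷`. -/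
theorem result :
    ∃ φ : Circle × Circle → EuclideanSpace ℝ (Fin 7),
      IsTotallySkewEmbedding ((𝓡 1).prod (𝓡 1)) φ := by
  refine ⟨phi, isTotallySkewEmbedding_of_compact phi_contMDiff ?_ ?_⟩
  · intro x u hu
    rw [mvfderiv_phi] at hu
    have h : ∀ i : Fin 7, (dPhi (inc x) (mvfderiv ((𝓡 1).prod (𝓡 1)) inc x u)) i = 0 := by
      intro i
      rw [hu]
      rfl
    have h0 := h 0
    have h1 := h 1
    have h2 := h 2
    have h3 := h 3
    simp only [dPhi_apply] at h0 h1 h2 h3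
    have e1 : (mvfderiv ((𝓡 1).prod (𝓡 1)) inc x u).1 = 0 := Complex.ext h0 h1
    have e2 : (mvfderiv ((𝓡 1).prod (𝓡 1)) inc x u).2 = 0 := Complex.ext h2 h3
    rw [inc_fst] at e1
    rw [inc_snd] at e2
    have f1 : u.1 = 0 := coe_inj' x.1 u.1 e1
    have f2 : u.2 = 0 := coe_inj' x.2 u.2 e2
    exact Prod.ext f1 f2
  · intro x y hxy t u v h
    exact main hxy h

end Pool.Agent.Lib.MP_794fdb_gt.TorusR7
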